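import Pool.Agent.Helper52.UN.U1
import Pool.Agent.Helper23.NW.IN3
import Pool.Agent.Helper95.KZ.Goals
import Pool.Agent.Helper58.BT.Good

/-!
# Universal groups
-/

set_option autoImplicit false

namespace Pool.Agent.Helper52.UN

open Pool.Agent.Helper52.Wq2 Pool.Agent.Helper61.NW
open Pool.Agent.Helper52.Wqo (Gen PreC cmp conn_normal complete_minor)

universe u

/-- At most one end, or an infinite normal subgroup without free subgroups of rank two or with
infinite centralizer. -/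
def TameG (D : Type u) [Group D] : Prop :=
  (∀ U : Set D, (∀ g : D, {x | x ∈ U ∧ x * g ∉ U}.Finite) → U.Finite ∨ Uᶜ.Finite) ∨
  ∃ N : Subgroup D, N.Normal ∧ Infinite N ∧
    ((∀ f : FreeGroup (Fin 2) →* N, ¬ Function.Injective f) ∨
      Infinite (Subgroup.centralizer (N : Set D)))

/-- **U2.** -/
theorem uv_of_not_fg {D : Type u} [Group D] (hfg : ¬ Group.FG D) (ht : TameG D) : Uv D := by
  intro T hT
  have hinf : T.Infinite := by
    intro hfin
    exact hfg (Group.fg_iff.2 ⟨T, hT.1, hfin⟩)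
  obtain ⟨φ, h1, h2, h3⟩ :=
    Pool.Agent.Helper58.Good.whole D (Or.inr ht) T hT.1 hT.2.1 hT.2.2 hinf
  refine ⟨φ, fun v => (conn_iff _ _).1 (h1 v), ?_, ?_⟩
  · intro v w x hx hy
    by_contra hne
    exact Set.disjoint_left.1 (h2 v w hne) hx hy
  · intro v w hvw
    exact h3 v w hvw.ne

/-- Virtually nilpotent, not virtually cyclic, and not virtually `ℤ²` or with a nontrivial finite
normal subgroup. -/
def Vn (D : Type u) [Group D] : Prop :=
  (∃ N : Subgroup D, N.FiniteIndex ∧ Group.IsNilpotent N) ∧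
    (¬ ∃ c : D, (Subgroup.zpowers c).FiniteIndex) ∧
    ((∃ K : Subgroup D, K.Normal ∧ K ≠ ⊥ ∧ (K : Set D).Finite) ∨
      ¬ ∃ A : Subgroup D, A.FiniteIndex ∧ Nonempty (A ≃* Multiplicative (ℤ × ℤ)))

/-- **U3.** -/
theorem uv_of_vn (hZ : Zd2Stmt.{u}) (hV : VnlStmt.{u}) (hK : Pool.Agent.Helper95.KZ.Kz2Stmt.{u})
    {D : Type u} [Group D] (h : Vn D) : Uv D := by
  obtain ⟨h1, h2, h3⟩ := h
  have hI : Infinite D := by
    by_contra hI
    have := not_infinite_iff_finite.1 hI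
    exact h2 ⟨1, inferInstance⟩
  intro T hT
  by_cases hfin : T.Finite
  · have hFG : Group.FG D := Group.fg_iff.2 ⟨T, hT.1, hfin⟩
    rcases hV D hFG hI h1 with h4 | h4 | h4
    · exact hZ D T hT hfin h4
    · rcases h3 with h3 | h3
      · exact hK D T hT h4 h3
      · exact absurd h4 h3
    · exact absurd h4 h2
  · exact Pool.Agent.Helper23.NW.in3 D T hI hT hfin h1

/-- The two kinds of large groups. -/
def Lrg (D : Type u) [Group D] : Prop := (¬ Group.FG D ∧ TameG D) ∨ Vn D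

theorem uv_of_sub_lrg (hZ : Zd2Stmt.{u}) (hV : VnlStmt.{u})
    (hK : Pool.Agent.Helper95.KZ.Kz2Stmt.{u}) {Γ : Type u} [Group Γ]
    (h : ∃ D : Subgroup Γ, Lrg D) : Uv Γ := by
  obtain ⟨D, h | h⟩ := h
  · exact uv_of_sub D (uv_of_not_fg h.1 h.2)
  · exact uv_of_sub D (uv_of_vn hZ hV hK h)

end Pool.Agent.Helper52.UN
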