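import Pool.Agent.Helper52.UN.U3
import Pool.Agent.Helper52.NW.Asm3
import Pool.Agent.Helper95.KZ.Asm
import Pool.Agent.Helper74.FP.Goals

/-!
# The final class, without free products
-/

set_option autoImplicit false

namespace Pool.Agent.Helper52.UN

open Pool.Agent.Helper52.Wq2 Pool.Agent.Helper61.NW Pool.Agent.Helper52.NW

universe u

/-- Groups with a large subgroup are universal. -/
theorem uv_lrg {Γ : Type u} [Group Γ] (h : ∃ D : Subgroup Γ, Lrg D) : Uv Γ :=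
  uv_of_sub_lrg Pool.Agent.Helper35.NW.zd2 Pool.Agent.Helper80.NIL.vnl
    Pool.Agent.Helper95.KZ.kz2 h

/-- The class of groups. -/
def InC (Γ : Type u) [Group Γ] : Prop :=
  Group.IsNilpotent Γ ∨ (Subgroup.center Γ).FiniteIndex ∨
    (∃ c : Γ, (Subgroup.zpowers c).FiniteIndex) ∨ ∃ D : Subgroup Γ, Lrg D

theorem typC {Γ : Type u} [Group Γ] (hΓ : Infinite Γ) {S : Set Γ} (hS : IsGen S) (h : InC Γ) :
    KN (cay S) ∨ (∃ b, Nonempty (cay S ≃g Lat b)) ∨ ∃ n, T3 (cay S) n := by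
  rcases h with h | h | ⟨c, hc⟩ | h
  · exact typ3 Pool.Agent.Helper35.NW.zd2 Pool.Agent.Helper80.NIL.vnl Pool.Agent.Helper23.NW.in3
      Pool.Agent.Helper55.NW.ten Pool.Agent.Helper24.NW.dih ltt hΓ hS (Or.inl h)
  · exact typ3 Pool.Agent.Helper35.NW.zd2 Pool.Agent.Helper80.NIL.vnl Pool.Agent.Helper23.NW.in3
      Pool.Agent.Helper55.NW.ten Pool.Agent.Helper24.NW.dih ltt hΓ hS (Or.inr (Or.inl h))
  · by_cases hfin : S.Finite
    · exact Or.inr (Or.inr (two_ended Pool.Agent.Helper24.NW.dih ltt Pool.Agent.Helper55.NW.ten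
        hΓ hS hfin ⟨c, hc⟩))
    · have hnil : Group.IsNilpotent (Subgroup.zpowers c) :=
        @CommGroup.isNilpotent _ IsCyclic.commGroup
      exact Or.inl (Pool.Agent.Helper23.NW.in3 Γ S hΓ hS hfin ⟨_, hc, hnil⟩)
  · exact Or.inl (uv_lrg h S hS)

/-- The class of pairs. -/
def P0 (Γ : Type u) [Group Γ] (S : Set Γ) : Prop :=
  Countable Γ ∧ ((Infinite Γ ∧ InC Γ) ∨ KN (cay S))

theorem wqo0 : Pool.Agent.Helper74.FP.Wqo.{u} (fun Γ _ S => P0 Γ S) := by
  intro Γ _ S hS hP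
  have : ∀ i, Countable (Γ i) := fun i => (hP i).1
  refine sq3 Γ (fun i => cay (S i)) (fun i => ?_)
  rcases (hP i).2 with ⟨h1, h2⟩ | h1
  · exact typC h1 (hS i) h2
  · exact Or.inl h1

end Pool.Agent.Helper52.UN
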