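import Pool.Agent.Helper52.UN.FinU

/-!
# Transport of the class `Vn`
-/

set_option autoImplicit false

namespace Pool.Agent.Helper52.UN

universe u

theorem vn_equiv {D E : Type u} [Group D] [Group E] (e : D ≃* E) (h : Vn D) : Vn E := by
  obtain ⟨⟨N, hN, hnil⟩, hc, hK⟩ := h
  refine ⟨⟨N.map (e : D →* E), ?_, ?_⟩, ?_, ?_⟩
  · constructor
    rw [Subgroup.index_map_equiv]
    exact hN.index_ne_zero
  · exact Group.nilpotent_of_mulEquiv (e.subgroupMap N)
  · rintro ⟨c, hc'⟩
    apply hc
    refine ⟨e.symm c, ?_⟩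
    have : Subgroup.zpowers (e.symm c) = (Subgroup.zpowers c).map (e.symm : E →* D) := by
      rw [MonoidHom.map_zpowers]; rfl
    rw [this]
    constructor
    rw [Subgroup.index_map_equiv]
    exact hc'.index_ne_zero
  · rcases hK with ⟨K, h1, h2, h3⟩ | hK
    · left
      refine ⟨K.map (e : D →* E), h1.map _ e.surjective, ?_, ?_⟩
      · intro h4
        apply h2
        exact (Subgroup.map_eq_bot_iff_of_injective K e.injective).1 h4
      · rw [Subgroup.coe_map]
        exact h3.image _
    · right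
      rintro ⟨A, hA, ⟨f⟩⟩
      apply hK
      refine ⟨A.map (e.symm : E →* D), ?_, ⟨(e.symm.subgroupMap A).symm.trans f⟩⟩
      constructor
      rw [Subgroup.index_map_equiv]
      exact hA.index_ne_zero

theorem vn_top {Γ : Type u} [Group Γ] (h : Vn Γ) : Vn (⊤ : Subgroup Γ) :=
  vn_equiv Subgroup.topEquiv.symm h

end Pool.Agent.Helper52.UN
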